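import Pool.Agent.V7H6.ET.M3
import Pool.Agent.V7H94.ET.BT
import Pool.Agent.H617R3.BT.Sieve

/-! The final theorem from job Y. -/

set_option autoImplicit false

namespace Pool.Agent.V7H6.ET

open Finset

theorem t_PHI : S_PHI := Pool.Agent.Helper112.sum_ratio_sq

theorem t_BT : S_BT := Pool.Agent.V7H94.ET.t_BT Pool.Agent.H617R3.BT.bt2

/-- `F(x) ≤ C x (log x)^(-A)` for every `A > 0`. -/
def Small (F : ℕ → ℝ) : Prop := ∀ A : ℝ, 0 < A → ∃ C : ℝ, 0 < C ∧ ∀ x : ℕ, 2 < x →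
  F x ≤ C * (x : ℝ) * (Real.log (x : ℝ)) ^ (-A)

theorem final (hY : S_Y) :
    (∀ p : ℕ → ℝ, (∀ x, 2 < x → 0 < p x) → (∀ c : ℝ, 0 < c → ∃ X : ℕ, ∀ x, X ≤ x → p x ≤ order c x) →
      ∀ θ : ℝ, θ < 1 → Small (fun x => sumMean θ (p x) x errMax)) ∧
    (∀ (p : ℕ → ℝ) (c : ℝ), 0 < c → (∀ x, 2 < x → order c x ≤ p x) →
      (∀ θ : ℝ, Small (S θ) ↔ Small (fun x => sumMean θ (p x) x err)) ∧
      ((∀ θ : ℝ, θ < 1 → Small (S θ)) ↔ ∀ θ : ℝ, θ < 1 → Small (fun x => sumMean θ (p x) x errMax))) ∧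
    (∀ θ C : ℝ, 0 < C → (θ < 1 → ∃ K : ℝ, 0 < K ∧ ∀ x : ℕ, 2 < x →
        sumMean θ (order C x) x errMax ≤ K * x * Real.log x ^ (-((1 - θ) / C))) ∧
      ∀ x : ℕ, 2 < x → S θ x ≤ Real.log x ^ (θ / C) * sumMean θ (order C x) x err) ∧
    (∀ U : ℕ, ∃ B x₀ : ℕ, ∀ x : ℕ, x₀ ≤ x → ∀ Q : ℕ, 1 ≤ Q → ∀ p : ℝ, 1 ≤ p →
      p * (B * Real.log (Real.log x)) ≤ Real.log (x / Q) →
      ∑ q ∈ Icc 1 Q, mean p q (errMax x q) ≤ x / Real.log x ^ U) := by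
  refine ⟨fun p hp h => belowBound t_BT p hp h, fun p c hc hp =>
    ⟨fun θ => threshold c p hc hp θ, thresholdMax hY c p hc hp⟩, fun θ C hC => ⟨fun hθ => ?_, fun x hx =>
      above θ C hC x hx⟩, Pool.Agent.V7H6.LP.main⟩
  obtain ⟨K, hK, h⟩ := below t_BT θ C hθ hC
  exact ⟨K, hK, fun x hx => h x hx _ (order_pos hC hx) le_rfl⟩

end Pool.Agent.V7H6.ET
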