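import Pool.Agent.V7H6.ET.Spec

/-! Means of order `p` over the reduced residues. -/

set_option autoImplicit false

namespace Pool.Agent.V7H6.ET

open Finset

/-- The mean of order `p` of `f` over the `φ(q)` reduced residues modulo `q`. -/
noncomputable def mean (p : ℝ) (q : ℕ) (f : ℕ → ℝ) : ℝ :=
  ((∑ a ∈ residues q, f a ^ p) / (Nat.totient q : ℝ)) ^ (1 / p)

lemma card_res (q : ℕ) : (residues q).card = Nat.totient q := by
  unfold residues
  rw [Nat.totient_eq_card_coprime]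
  congr 1
  apply filter_congr
  intro a _
  exact Nat.coprime_comm

lemma mean_nonneg (p : ℝ) (q : ℕ) (f : ℕ → ℝ) (hf : ∀ a, 0 ≤ f a) : 0 ≤ mean p q f :=
  Real.rpow_nonneg (div_nonneg (sum_nonneg (fun a _ => Real.rpow_nonneg (hf a) p)) (Nat.cast_nonneg _)) _

lemma mean_le_of_sum {p : ℝ} (hp : 0 < p) (q : ℕ) (f : ℕ → ℝ) (hf : ∀ a, 0 ≤ f a) (R : ℝ) (hR : 0 ≤ R)
    (h : (∑ a ∈ residues q, f a ^ p) / (Nat.totient q : ℝ) ≤ R ^ p) : mean p q f ≤ R := by
  unfold mean
  calc ((∑ a ∈ residues q, f a ^ p) / (Nat.totient q : ℝ)) ^ (1 / p)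
      ≤ (R ^ p) ^ (1 / p) := by
        apply Real.rpow_le_rpow _ h (by positivity)
        exact div_nonneg (sum_nonneg (fun a _ => Real.rpow_nonneg (hf a) p)) (Nat.cast_nonneg _)
    _ = R := by rw [← Real.rpow_mul hR, mul_one_div_cancel hp.ne', Real.rpow_one]

lemma mean_mono_fun {p : ℝ} (hp : 0 < p) (q : ℕ) (f g : ℕ → ℝ) (hf : ∀ a, 0 ≤ f a)
    (h : ∀ a ∈ residues q, f a ≤ g a) : mean p q f ≤ mean p q g := by
  unfold mean
  apply Real.rpow_le_rpow _ _ (by positivity)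
  · exact div_nonneg (sum_nonneg (fun a _ => Real.rpow_nonneg (hf a) p)) (Nat.cast_nonneg _)
  · apply div_le_div_of_nonneg_right _ (Nat.cast_nonneg _)
    exact sum_le_sum (fun a ha => Real.rpow_le_rpow (hf a) (h a ha) hp.le)

lemma mean_le {p : ℝ} (hp : 0 < p) (q : ℕ) (hq : 1 ≤ q) (f : ℕ → ℝ) (hf : ∀ a, 0 ≤ f a) (m : ℝ) (hm : 0 ≤ m)
    (h : ∀ a ∈ residues q, f a ≤ m) : mean p q f ≤ m := by
  have hφ0 : (0 : ℝ) < Nat.totient q := by exact_mod_cast Nat.totient_pos.mpr (by omega)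
  apply mean_le_of_sum hp q f hf m hm
  rw [div_le_iff₀ hφ0]
  calc ∑ a ∈ residues q, f a ^ p ≤ ∑ a ∈ residues q, m ^ p :=
        sum_le_sum (fun a ha => Real.rpow_le_rpow (hf a) (h a ha) hp.le)
    _ = m ^ p * Nat.totient q := by rw [sum_const, card_res, nsmul_eq_mul, mul_comm]

lemma le_mean {p : ℝ} (hp : 0 < p) (q : ℕ) (hq : 1 ≤ q) (f : ℕ → ℝ) (hf : ∀ a, 0 ≤ f a) (a : ℕ)
    (ha : a ∈ residues q) : f a ≤ (Nat.totient q : ℝ) ^ (1 / p) * mean p q f := by
  have hφ0 : (0 : ℝ) < Nat.totient q := by exact_mod_cast Nat.totient_pos.mpr (by omega)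
  have h1 : f a ^ p ≤ ∑ b ∈ residues q, f b ^ p :=
    single_le_sum (f := fun b => f b ^ p) (fun b _ => Real.rpow_nonneg (hf b) _) ha
  have h2 : f a = ((f a) ^ p) ^ (1 / p) := by
    rw [← Real.rpow_mul (hf a), mul_one_div_cancel hp.ne', Real.rpow_one]
  have hS : 0 ≤ ∑ b ∈ residues q, f b ^ p := sum_nonneg (fun b _ => Real.rpow_nonneg (hf b) _)
  have hL : (∑ b ∈ residues q, f b ^ p) ^ (1 / p) = (Nat.totient q : ℝ) ^ (1 / p) * mean p q f := by
    unfold mean
    rw [← Real.mul_rpow hφ0.le (div_nonneg hS hφ0.le), mul_div_cancel₀ _ hφ0.ne']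
  have h3 : ((f a) ^ p) ^ (1 / p) ≤ (∑ b ∈ residues q, f b ^ p) ^ (1 / p) :=
    Real.rpow_le_rpow (Real.rpow_nonneg (hf a) _) h1 (one_div_nonneg.2 hp.le)
  rw [← h2, hL] at h3
  exact h3

/-- power means increase with the order -/
lemma mean_mono {p p' : ℝ} (hp : 0 < p) (hpp : p ≤ p') (q : ℕ) (hq : 1 ≤ q) (f : ℕ → ℝ) (hf : ∀ a, 0 ≤ f a) :
    mean p q f ≤ mean p' q f := by
  have hφ0 : (0 : ℝ) < Nat.totient q := by exact_mod_cast Nat.totient_pos.mpr (by omega)
  have hp' : 0 < p' := by linarith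
  have hr : 1 ≤ p' / p := by rw [le_div_iff₀ hp]; linarith
  apply mean_le_of_sum hp q f hf _ (mean_nonneg _ _ _ hf)
  obtain ⟨s, hs⟩ : ∃ s : ℝ, s = (∑ a ∈ residues q, f a ^ p) / (Nat.totient q : ℝ) := ⟨_, rfl⟩
  have hs0 : 0 ≤ s := by
    rw [hs]
    exact div_nonneg (sum_nonneg (fun a _ => Real.rpow_nonneg (hf a) p)) hφ0.le
  obtain ⟨t, ht⟩ : ∃ t : ℝ, t = (∑ a ∈ residues q, f a ^ p') / (Nat.totient q : ℝ) := ⟨_, rfl⟩
  have ht0 : 0 ≤ t := by
    rw [ht]
    exact div_nonneg (sum_nonneg (fun a _ => Real.rpow_nonneg (hf a) p')) hφ0.le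
  have h1 : s ^ (p' / p) ≤ t := by
    have h2 := Real.rpow_arith_mean_le_arith_mean_rpow (residues q) (fun _ => 1 / (Nat.totient q : ℝ))
      (fun a => f a ^ p) (fun a _ => by positivity)
      (by rw [sum_const, card_res, nsmul_eq_mul]; field_simp) (fun a _ => Real.rpow_nonneg (hf a) p) hr
    have h3 : ∑ a ∈ residues q, 1 / (Nat.totient q : ℝ) * f a ^ p = s := by
      rw [← mul_sum, hs]; ring
    have h4 : ∑ a ∈ residues q, 1 / (Nat.totient q : ℝ) * (f a ^ p) ^ (p' / p) = t := by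
      rw [← mul_sum, ht]
      have : ∀ a ∈ residues q, (f a ^ p) ^ (p' / p) = f a ^ p' := by
        intro a _
        rw [← Real.rpow_mul (hf a), mul_div_cancel₀ _ hp.ne']
      rw [sum_congr rfl this]; ring
    rw [h3, h4] at h2
    exact h2
  have h2 : mean p' q f = t ^ (1 / p') := by rw [ht]; rfl
  rw [← hs, h2]
  calc s = (s ^ (p' / p)) ^ (p / p') := by
        rw [← Real.rpow_mul hs0]
        have : p' / p * (p / p') = 1 := by field_simp
        rw [this, Real.rpow_one]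
    _ ≤ t ^ (p / p') := Real.rpow_le_rpow (Real.rpow_nonneg hs0 _) h1 (by positivity)
    _ = (t ^ (1 / p')) ^ p := by
        rw [← Real.rpow_mul ht0]
        congr 1
        field_simp

/-- most values at most `m`, the others at most `T` -/
lemma mean_exc {p : ℝ} (hp : 1 ≤ p) (q : ℕ) (hq : 1 ≤ q) (f : ℕ → ℝ) (hf : ∀ a, 0 ≤ f a) (E : Finset ℕ)
    (m T : ℝ) (hm : 0 ≤ m) (hT : 0 ≤ T) (h1 : ∀ a ∈ residues q, a ∉ E → f a ≤ m)
    (h2 : ∀ a ∈ residues q, f a ≤ T) :
    mean p q f ≤ m + ((E.card : ℝ) / (Nat.totient q : ℝ)) ^ (1 / p) * T := by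
  classical
  have hφ0 : (0 : ℝ) < Nat.totient q := by exact_mod_cast Nat.totient_pos.mpr (by omega)
  have hp0 : 0 < p := by linarith
  obtain ⟨w, hw⟩ : ∃ w : ℝ, w = (E.card : ℝ) / (Nat.totient q : ℝ) := ⟨_, rfl⟩
  have hw0 : 0 ≤ w := by rw [hw]; positivity
  rw [← hw]
  have h3 : ∑ a ∈ residues q, f a ^ p ≤ (Nat.totient q : ℝ) * m ^ p + (E.card : ℝ) * T ^ p := by
    rw [← sum_filter_add_sum_filter_not (residues q) (fun a => a ∉ E)]
    apply add_le_add
    · calc ∑ a ∈ (residues q).filter (fun a => a ∉ E), f a ^ p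
          ≤ ∑ a ∈ (residues q).filter (fun a => a ∉ E), m ^ p := by
            apply sum_le_sum
            intro a ha
            rw [mem_filter] at ha
            exact Real.rpow_le_rpow (hf _) (h1 a ha.1 ha.2) hp0.le
        _ = (((residues q).filter (fun a => a ∉ E)).card : ℝ) * m ^ p := by
            rw [sum_const, nsmul_eq_mul]
        _ ≤ _ := by
            apply mul_le_mul_of_nonneg_right _ (Real.rpow_nonneg hm p)
            have : ((residues q).filter (fun a => a ∉ E)).card ≤ Nat.totient q := by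
              rw [← card_res]; exact card_filter_le _ _
            exact_mod_cast this
    · calc ∑ a ∈ (residues q).filter (fun a => ¬ a ∉ E), f a ^ p
          ≤ ∑ a ∈ (residues q).filter (fun a => ¬ a ∉ E), T ^ p := by
            apply sum_le_sum
            intro a ha
            rw [mem_filter] at ha
            exact Real.rpow_le_rpow (hf _) (h2 a ha.1) hp0.le
        _ = (((residues q).filter (fun a => ¬ a ∉ E)).card : ℝ) * T ^ p := by
            rw [sum_const, nsmul_eq_mul]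
        _ ≤ _ := by
            apply mul_le_mul_of_nonneg_right _ (Real.rpow_nonneg hT p)
            have : ((residues q).filter (fun a => ¬ a ∉ E)).card ≤ E.card := by
              apply card_le_card
              intro a ha
              rw [mem_filter, not_not] at ha
              exact ha.2
            exact_mod_cast this
  have h6 : 0 ≤ m + w ^ (1 / p) * T := by positivity
  apply mean_le_of_sum hp0 q f hf _ h6
  calc (∑ a ∈ residues q, f a ^ p) / (Nat.totient q : ℝ)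
      ≤ ((Nat.totient q : ℝ) * m ^ p + (E.card : ℝ) * T ^ p) / (Nat.totient q : ℝ) := by gcongr
    _ = m ^ p + w * T ^ p := by
        rw [add_div, mul_div_cancel_left₀ _ hφ0.ne', mul_div_right_comm, hw]
    _ = m ^ p + (w ^ (1 / p) * T) ^ p := by
        rw [Real.mul_rpow (Real.rpow_nonneg hw0 _) hT, ← Real.rpow_mul hw0,
          one_div_mul_cancel hp0.ne', Real.rpow_one]
    _ ≤ _ := Real.add_rpow_le_rpow_add hm (by positivity) hp

end Pool.Agent.V7H6.ET
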