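import Pool.Agent.V7H6.ET.M1
import Pool.Agent.V7H6.LP.A
import Pool.Agent.Helper112.Arith

/-! The sum over the moduli of the means of order `C log x / log log x`. -/

set_option autoImplicit false

namespace Pool.Agent.V7H6.ET

open Finset

/-- The order `C log x / log log x`. -/
noncomputable def order (C : ℝ) (x : ℕ) : ℝ := C * Real.log x / Real.log (Real.log x)

/-- The sum over the moduli `q ≤ x^θ` of the means of order `p`. -/
noncomputable def sumMean (θ p : ℝ) (x : ℕ) (E : ℕ → ℕ → ℕ → ℝ) : ℝ :=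
  ∑ q ∈ Icc 1 ⌊(x : ℝ) ^ θ⌋₊, mean p q (E x q)

lemma err_nonneg (y q a : ℕ) : 0 ≤ err y q a := abs_nonneg _

lemma errMax_ex (x q a : ℕ) : ∃ y, y ≤ x ∧ errMax x q a = err y q a := by
  obtain ⟨y, hy, h⟩ := Finset.exists_mem_eq_sup' (⟨0, mem_range.2 (Nat.succ_pos x)⟩ : (range (x + 1)).Nonempty)
    (fun y => err y q a)
  exact ⟨y, by have := mem_range.1 hy; omega, h⟩

lemma errMax_nonneg (x q a : ℕ) : 0 ≤ errMax x q a := by
  obtain ⟨y, _, h⟩ := errMax_ex x q a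
  rw [h]; exact err_nonneg _ _ _

lemma err_le_errMax (x q a : ℕ) : err x q a ≤ errMax x q a :=
  Finset.le_sup' (fun y => err y q a) (mem_range.2 (Nat.lt_succ_self x))

lemma errMax_triv (x q a : ℕ) (hq : 1 ≤ q) (hqx : q ≤ x) : errMax x q a ≤ 2 * x :=
  (Pool.Agent.V7H6.LP.D_triv x q a hq hqx).trans (by
    have hφ1 : (1 : ℝ) ≤ Nat.totient q := by exact_mod_cast Nat.totient_pos.mpr (by omega)
    exact div_le_self (by positivity) hφ1)

lemma log_gt {x : ℕ} (hx : 2 < x) : 1 < Real.log x := by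
  have h1 : (3 : ℝ) ≤ x := by exact_mod_cast hx
  have h2 : Real.exp 1 < 3 := by have := Real.exp_one_lt_d9; linarith
  rw [← Real.log_exp 1]
  exact Real.log_lt_log (Real.exp_pos _) (by linarith)

lemma order_pos {C : ℝ} (hC : 0 < C) {x : ℕ} (hx : 2 < x) : 0 < order C x := by
  have h1 := log_gt hx
  have h2 := Real.log_pos h1
  unfold order
  positivity

lemma floor_le {θ : ℝ} (hθ : θ < 1) {x : ℕ} (hx : 2 < x) : ⌊(x : ℝ) ^ θ⌋₊ ≤ x := by
  have h1 : (1 : ℝ) ≤ x := by exact_mod_cast (by omega : 1 ≤ x)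
  have h2 : (x : ℝ) ^ θ ≤ (x : ℝ) ^ (1 : ℝ) := Real.rpow_le_rpow_of_exponent_le h1 hθ.le
  rw [Real.rpow_one] at h2
  have h3 := Nat.floor_le_floor h2
  rwa [Nat.floor_natCast] at h3

lemma mem_floor {x q : ℕ} {θ : ℝ} (h : q ∈ Icc 1 ⌊(x : ℝ) ^ θ⌋₊) : (q : ℝ) ≤ (x : ℝ) ^ θ := by
  rw [mem_Icc] at h
  exact (Nat.cast_le.2 h.2).trans (Nat.floor_le (by positivity))

lemma small {θ : ℝ} (hθ : θ < 1) {x : ℕ} (hx : 2 < x) {p : ℝ} (hp : 0 < p) :
    sumMean θ p x errMax ≤ 2 * (x : ℝ) ^ 2 := by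
  unfold sumMean
  have hQ := floor_le hθ hx
  calc ∑ q ∈ Icc 1 ⌊(x : ℝ) ^ θ⌋₊, mean p q (errMax x q) ≤ ∑ q ∈ Icc 1 ⌊(x : ℝ) ^ θ⌋₊, 2 * (x : ℝ) := by
        apply sum_le_sum
        intro q hq
        rw [mem_Icc] at hq
        exact mean_le hp q hq.1 _ (errMax_nonneg x q) _ (by positivity)
          (fun a _ => errMax_triv x q a hq.1 (hq.2.trans hQ))
    _ = (⌊(x : ℝ) ^ θ⌋₊ : ℝ) * (2 * x) := by
        rw [sum_const, Nat.card_Icc, Nat.add_sub_cancel, nsmul_eq_mul]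
    _ ≤ (x : ℝ) * (2 * x) := by
        apply mul_le_mul_of_nonneg_right _ (by positivity)
        exact_mod_cast hQ
    _ = _ := by ring

lemma loglog_le {L : ℝ} (hL : 1 < L) : Real.log L ^ 2 ≤ 4 * L := by
  have h0 : 0 < Real.sqrt L := Real.sqrt_pos.2 (by linarith)
  have h1 : Real.log (Real.sqrt L) ≤ Real.sqrt L - 1 := Real.log_le_sub_one_of_pos h0
  have h2 : Real.log (Real.sqrt L) = Real.log L / 2 := Real.log_sqrt (by linarith)
  have h3 : 0 ≤ Real.log L := Real.log_nonneg (by linarith)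
  have h4 : Real.sqrt L ^ 2 = L := Real.sq_sqrt (by linarith)
  nlinarith

lemma large (hBT : S_BT) {θ C : ℝ} (hθ : θ < 1) (hC : 0 < C) : ∃ (K : ℝ) (X : ℕ), 0 < K ∧ 2 < X ∧
    ∀ x : ℕ, X ≤ x → sumMean θ (order C x) x errMax ≤ K * x * Real.log x ^ (-((1 - θ) / C)) := by
  obtain ⟨U, hU⟩ : ∃ U : ℕ, U = ⌈(1 - θ) / C⌉₊ := ⟨_, rfl⟩
  have hUC : (1 - θ) / C ≤ U := by rw [hU]; exact Nat.le_ceil _
  obtain ⟨B, x0, h1⟩ := Pool.Agent.V7H6.LP.outside U
  obtain ⟨K1, hK1, hbt⟩ := hBT θ hθ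
  obtain ⟨C2, hC2, h2⟩ := Pool.Agent.Helper112.sum_ratio_sq
  refine ⟨1 + 2 * C2 * K1 * Real.exp (4 * B / C), max (max x0 3) ⌈Real.exp (4 / C ^ 2)⌉₊, by positivity,
    lt_of_lt_of_le (by norm_num) ((le_max_right x0 3).trans (le_max_left _ _)), fun x hx => ?_⟩
  have hx0 : x0 ≤ x := (le_max_left x0 3).trans ((le_max_left _ _).trans hx)
  have hx3 : 2 < x := (le_max_right x0 3).trans ((le_max_left _ _).trans hx)
  have hxe : Real.exp (4 / C ^ 2) ≤ x :=
    (Nat.le_ceil _).trans (by exact_mod_cast (le_max_right _ _).trans hx)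
  have hxpos : (0 : ℝ) < x := by exact_mod_cast (by omega : 0 < x)
  obtain ⟨L, hL⟩ : ∃ L : ℝ, L = Real.log x := ⟨_, rfl⟩
  obtain ⟨l, hl⟩ : ∃ l : ℝ, l = Real.log L := ⟨_, rfl⟩
  have hL1 : 1 < L := by rw [hL]; exact log_gt hx3
  have hl0 : 0 < l := by rw [hl]; exact Real.log_pos hL1
  have hlL : l ^ 2 ≤ 4 * L := by rw [hl]; exact loglog_le hL1
  have hLC : 4 / C ^ 2 ≤ L := by
    rw [hL, ← Real.log_exp (4 / C ^ 2)]
    exact Real.log_le_log (Real.exp_pos _) hxe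
  obtain ⟨p, hp⟩ : ∃ p : ℝ, p = order C x := ⟨_, rfl⟩
  have hp' : p = C * L / l := by rw [hp, hl, hL]; rfl
  have hp1 : 1 ≤ p := by
    rw [hp', le_div_iff₀ hl0, one_mul]
    have h3 : 4 ≤ C ^ 2 * L := by
      rw [div_le_iff₀ (by positivity)] at hLC
      linarith
    have h4 : l ^ 2 ≤ (C * L) ^ 2 := by nlinarith
    exact le_of_sq_le_sq h4 (by positivity)
  have hp0 : 0 < p := by linarith
  rw [← hp, ← hL]
  have hRHS0 : 0 ≤ (1 + 2 * C2 * K1 * Real.exp (4 * B / C)) * x * L ^ (-((1 - θ) / C)) := by positivity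
  obtain ⟨Q, hQ⟩ : ∃ Q : ℕ, Q = ⌊(x : ℝ) ^ θ⌋₊ := ⟨_, rfl⟩
  have hQx : Q ≤ x := by rw [hQ]; exact floor_le hθ hx3
  rcases Nat.eq_zero_or_pos Q with hQ0 | hQ1
  · unfold sumMean
    rw [← hQ, hQ0]
    simpa using hRHS0
  obtain ⟨E, m, hE, hm0, hm, hsum⟩ := h1 x hx0
  obtain ⟨ρ, hρ⟩ : ∃ ρ : ℝ, ρ = L ^ B * ((x : ℝ) ^ θ / x) := ⟨_, rfl⟩
  have hρ0 : 0 < ρ := by rw [hρ]; positivity
  have hone : ∀ q ∈ Icc 1 Q, mean p q (errMax x q) ≤ m q + (ρ ^ (1 / p) * K1 * x / L) *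
      ((1 / (q : ℝ)) * ((q : ℝ) / (Nat.totient q : ℝ)) ^ 2) := by
    intro q hq
    have hq' : (q : ℝ) ≤ (x : ℝ) ^ θ := by rw [hQ] at hq; exact mem_floor hq
    rw [mem_Icc] at hq
    have hφ0 : (0 : ℝ) < Nat.totient q := by exact_mod_cast Nat.totient_pos.mpr (by omega)
    have hq0 : (0 : ℝ) < q := by exact_mod_cast hq.1
    have hφq : (Nat.totient q : ℝ) ≤ q := by exact_mod_cast Nat.totient_le q
    obtain ⟨r, hr⟩ : ∃ r : ℝ, r = (q : ℝ) / (Nat.totient q : ℝ) := ⟨_, rfl⟩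
    have hr1 : 1 ≤ r := by rw [hr, one_le_div hφ0]; exact hφq
    have h3 := mean_exc hp1 q hq.1 (errMax x q) (errMax_nonneg x q) (E q) (m q)
      (K1 * x / ((Nat.totient q : ℝ) * Real.log x)) (hm0 q) (by rw [← hL]; positivity)
      (fun a ha haE => hm q a ha haE) (fun a ha => hbt x hx3 q hq.1 hq' a ha)
    refine h3.trans ?_
    have h4 : ((E q).card : ℝ) / (Nat.totient q : ℝ) ≤ ρ * r := by
      rw [div_le_iff₀ hφ0]
      calc ((E q).card : ℝ) ≤ Real.log x ^ B * (q : ℝ) ^ 2 / x := hE q hq.1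
        _ = L ^ B * ((q : ℝ) / x) * q := by rw [hL]; ring
        _ ≤ L ^ B * ((x : ℝ) ^ θ / x) * q := by gcongr
        _ = ρ * r * Nat.totient q := by rw [hρ, hr]; field_simp
    have h5 : (((E q).card : ℝ) / (Nat.totient q : ℝ)) ^ (1 / p) ≤ ρ ^ (1 / p) * r := by
      calc (((E q).card : ℝ) / (Nat.totient q : ℝ)) ^ (1 / p) ≤ (ρ * r) ^ (1 / p) :=
            Real.rpow_le_rpow (by positivity) h4 (by positivity)
        _ = ρ ^ (1 / p) * r ^ (1 / p) := Real.mul_rpow hρ0.le (by linarith)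
        _ ≤ ρ ^ (1 / p) * r := by
            apply mul_le_mul_of_nonneg_left _ (by positivity)
            calc r ^ (1 / p) ≤ r ^ (1 : ℝ) := by
                  apply Real.rpow_le_rpow_of_exponent_le hr1
                  rw [div_le_one hp0]; exact hp1
              _ = r := Real.rpow_one r
    have h6 : (((E q).card : ℝ) / (Nat.totient q : ℝ)) ^ (1 / p) * (K1 * x / ((Nat.totient q : ℝ) * Real.log x)) ≤
        ρ ^ (1 / p) * r * (K1 * x / ((Nat.totient q : ℝ) * L)) := by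
      rw [← hL]
      exact mul_le_mul_of_nonneg_right h5 (by positivity)
    have h7 : ρ ^ (1 / p) * r * (K1 * x / ((Nat.totient q : ℝ) * L)) =
        (ρ ^ (1 / p) * K1 * x / L) * ((1 / (q : ℝ)) * ((q : ℝ) / (Nat.totient q : ℝ)) ^ 2) := by
      rw [hr]; field_simp
    linarith
  have hlogρ : Real.log ρ = B * l - (1 - θ) * L := by
    rw [hρ, Real.log_mul (by positivity) (by positivity), Real.log_pow, Real.log_div (by positivity) (by positivity),
      Real.log_rpow hxpos, ← hL, hl]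
    ring
  have hρp : ρ ^ (1 / p) ≤ Real.exp (4 * B / C) * L ^ (-((1 - θ) / C)) := by
    rw [Real.rpow_def_of_pos hρ0, Real.rpow_def_of_pos (by linarith), ← Real.exp_add, ← hl, hlogρ]
    apply Real.exp_le_exp.2
    have h3 : 1 / p = l / (C * L) := by rw [hp']; field_simp
    rw [h3]
    have hL0 : 0 < L := by linarith
    have h4 : (B * l - (1 - θ) * L) * (l / (C * L)) = B * (l ^ 2 / L) / C + l * (-((1 - θ) / C)) := by
      field_simp
      ring
    rw [h4]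
    have h5 : l ^ 2 / L ≤ 4 := by rw [div_le_iff₀ hL0]; exact hlL
    have h6 : (B : ℝ) * (l ^ 2 / L) / C ≤ 4 * B / C := by
      apply div_le_div_of_nonneg_right _ hC.le
      have : (0 : ℝ) ≤ B := Nat.cast_nonneg B
      nlinarith
    linarith
  unfold sumMean
  rw [← hQ]
  refine (sum_le_sum hone).trans ?_
  rw [sum_add_distrib, ← mul_sum]
  have h3 := hsum Q hQx
  have h4 := h2 Q hQ1
  have hL0 : 0 < L := by linarith
  have h5 : 1 + Real.log Q ≤ 2 * L := by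
    have : Real.log Q ≤ L := by
      rw [hL]
      exact Real.log_le_log (by exact_mod_cast hQ1) (by exact_mod_cast hQx)
    linarith
  have h6 : (x : ℝ) / Real.log x ^ U ≤ x * L ^ (-((1 - θ) / C)) := by
    rw [← hL, div_eq_mul_inv]
    apply mul_le_mul_of_nonneg_left _ hxpos.le
    rw [← Real.rpow_natCast, ← Real.rpow_neg hL0.le]
    exact Real.rpow_le_rpow_of_exponent_le hL1.le (by linarith)
  have h7 : ρ ^ (1 / p) * K1 * x / L * ∑ q ∈ Icc 1 Q, (1 / (q : ℝ)) * ((q : ℝ) / (Nat.totient q : ℝ)) ^ 2 ≤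
      2 * C2 * K1 * Real.exp (4 * B / C) * (x * L ^ (-((1 - θ) / C))) := by
    calc ρ ^ (1 / p) * K1 * x / L * ∑ q ∈ Icc 1 Q, (1 / (q : ℝ)) * ((q : ℝ) / (Nat.totient q : ℝ)) ^ 2
        ≤ ρ ^ (1 / p) * K1 * x / L * (C2 * (2 * L)) := by
          apply mul_le_mul_of_nonneg_left _ (by positivity)
          exact h4.trans (mul_le_mul_of_nonneg_left h5 hC2.le)
      _ = 2 * C2 * K1 * x * ρ ^ (1 / p) := by field_simp
      _ ≤ 2 * C2 * K1 * x * (Real.exp (4 * B / C) * L ^ (-((1 - θ) / C))) := by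
          apply mul_le_mul_of_nonneg_left hρp (by positivity)
      _ = _ := by ring
  calc _ ≤ x * L ^ (-((1 - θ) / C)) + 2 * C2 * K1 * Real.exp (4 * B / C) * (x * L ^ (-((1 - θ) / C))) :=
        add_le_add (h3.trans h6) h7
    _ = _ := by ring

/-- **unconditional bound, all orders `p ≤ C log x / log log x`** -/
theorem below (hBT : S_BT) : ∀ θ C : ℝ, θ < 1 → 0 < C → ∃ K : ℝ, 0 < K ∧ ∀ x : ℕ, 2 < x → ∀ p : ℝ, 0 < p →
    p ≤ order C x → sumMean θ p x errMax ≤ K * x * Real.log x ^ (-((1 - θ) / C)) := by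
  intro θ C hθ hC
  obtain ⟨K, X, hK, hX, h⟩ := large hBT hθ hC
  have hs0 : 0 < (1 - θ) / C := by apply div_pos _ hC; linarith
  have hlX : 1 < Real.log X := log_gt hX
  refine ⟨max K (2 * X * Real.log X ^ ((1 - θ) / C)), lt_max_of_lt_left hK, fun x hx p hp hpo => ?_⟩
  have hxpos : (0 : ℝ) < x := by exact_mod_cast (by omega : 0 < x)
  have hL1 := log_gt hx
  have hL0 : 0 < Real.log x := by linarith
  rcases lt_or_ge x X with hxX | hxX
  · refine (small hθ hx hp).trans ?_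
    have h1 : (x : ℝ) ≤ X := by exact_mod_cast hxX.le
    have h2 : Real.log x ≤ Real.log X := Real.log_le_log hxpos h1
    have h3 : 1 ≤ Real.log X ^ ((1 - θ) / C) * Real.log x ^ (-((1 - θ) / C)) := by
      rw [Real.rpow_neg hL0.le, ← div_eq_mul_inv, one_le_div (by positivity)]
      exact Real.rpow_le_rpow hL0.le h2 hs0.le
    calc 2 * (x : ℝ) ^ 2 = 2 * x * x * 1 := by ring
      _ ≤ 2 * X * x * (Real.log X ^ ((1 - θ) / C) * Real.log x ^ (-((1 - θ) / C))) := by gcongr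
      _ = (2 * X * Real.log X ^ ((1 - θ) / C)) * x * Real.log x ^ (-((1 - θ) / C)) := by ring
      _ ≤ _ := by gcongr; exact le_max_right _ _
  · calc sumMean θ p x errMax ≤ sumMean θ (order C x) x errMax := by
          unfold sumMean
          apply sum_le_sum
          intro q hq
          rw [mem_Icc] at hq
          exact mean_mono hp hpo q hq.1 _ (errMax_nonneg x q)
      _ ≤ K * x * Real.log x ^ (-((1 - θ) / C)) := h x hxX
      _ ≤ _ := by gcongr; exact le_max_left _ _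

end Pool.Agent.V7H6.ET
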