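import Pool.Agent.V7H6.ET.M2

/-! From the means to the maximum and back. -/

set_option autoImplicit false

namespace Pool.Agent.V7H6.ET

open Finset

/-- The sum `S_θ(x)` of the problem (with the same expression as in the frozen statement). -/
noncomputable def S (θ : ℝ) (x : ℕ) : ℝ :=
  ∑ q ∈ Finset.Icc 1 ⌊(x : ℝ) ^ θ⌋₊,
    (⨆ a : (ZMod q)ˣ,
      |(((Finset.Icc 1 x).filter
          (fun p : ℕ => Nat.Prime p ∧ ((p : ZMod q) = ((a : (ZMod q)ˣ) : ZMod q)))).card : ℝ)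
        - (Nat.primeCounting x : ℝ) / (Nat.totient q : ℝ)|)

/-- The conjecture. -/
def EH : Prop := ∀ θ : ℝ, θ < 1 → ∀ A : ℝ, 0 < A → ∃ C : ℝ, 0 < C ∧ ∀ x : ℕ, 2 < x →
  S θ x ≤ C * (x : ℝ) * (Real.log (x : ℝ)) ^ (-A)

/-- The bound of the conjecture for the means of order `p x`. -/
def Bound (p : ℕ → ℝ) (E : ℕ → ℕ → ℕ → ℝ) : Prop := ∀ θ : ℝ, θ < 1 → ∀ A : ℝ, 0 < A → ∃ C : ℝ, 0 < C ∧
  ∀ x : ℕ, 2 < x → sumMean θ (p x) x E ≤ C * (x : ℝ) * (Real.log (x : ℝ)) ^ (-A)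

lemma primePi_eq (x : ℕ) : primePi x = Nat.primeCounting x := by
  unfold primePi Nat.primeCounting Nat.primeCounting'
  rw [Nat.count_eq_card_filter_range]
  congr 1
  ext p
  simp only [mem_filter, mem_Icc, mem_range]
  constructor
  · rintro ⟨⟨h1, h2⟩, h3⟩; exact ⟨by omega, h3⟩
  · rintro ⟨h1, h2⟩; exact ⟨⟨h2.one_le, by omega⟩, h2⟩

lemma term_eq (x q : ℕ) (hq : 1 ≤ q) (a : (ZMod q)ˣ) :
    |(((Finset.Icc 1 x).filter
          (fun p : ℕ => Nat.Prime p ∧ ((p : ZMod q) = ((a : (ZMod q)ˣ) : ZMod q)))).card : ℝ)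
        - (Nat.primeCounting x : ℝ) / (Nat.totient q : ℝ)| = err x q (a : ZMod q).val := by
  have : NeZero q := ⟨by omega⟩
  unfold err primePiAP
  rw [primePi_eq]
  congr 4
  apply filter_congr
  intro p _
  have h1 : ((p : ZMod q) = ((a : (ZMod q)ˣ) : ZMod q)) ↔ p ≡ (a : ZMod q).val [MOD q] := by
    rw [← ZMod.natCast_eq_natCast_iff, ZMod.natCast_zmod_val]
  rw [h1]

lemma val_mem (q : ℕ) (hq : 1 ≤ q) (a : (ZMod q)ˣ) : (a : ZMod q).val ∈ residues q := by
  have : NeZero q := ⟨by omega⟩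
  unfold residues
  rw [mem_filter, mem_range]
  exact ⟨ZMod.val_lt _, ZMod.val_coe_unit_coprime a⟩

lemma sup_le (x q : ℕ) (hq : 1 ≤ q) (M : ℝ) (h : ∀ a ∈ residues q, err x q a ≤ M) :
    (⨆ a : (ZMod q)ˣ,
      |(((Finset.Icc 1 x).filter
          (fun p : ℕ => Nat.Prime p ∧ ((p : ZMod q) = ((a : (ZMod q)ˣ) : ZMod q)))).card : ℝ)
        - (Nat.primeCounting x : ℝ) / (Nat.totient q : ℝ)|) ≤ M := by
  have : NeZero q := ⟨by omega⟩
  apply ciSup_le
  intro a
  rw [term_eq x q hq a]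
  exact h _ (val_mem q hq a)

lemma le_sup (x q : ℕ) (hq : 1 ≤ q) (a : ℕ) (ha : a ∈ residues q) : err x q a ≤
    (⨆ a : (ZMod q)ˣ,
      |(((Finset.Icc 1 x).filter
          (fun p : ℕ => Nat.Prime p ∧ ((p : ZMod q) = ((a : (ZMod q)ˣ) : ZMod q)))).card : ℝ)
        - (Nat.primeCounting x : ℝ) / (Nat.totient q : ℝ)|) := by
  have : NeZero q := ⟨by omega⟩
  unfold residues at ha
  rw [mem_filter, mem_range] at ha
  have h1 : IsUnit (a : ZMod q) := (ZMod.isUnit_iff_coprime a q).2 ha.2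
  obtain ⟨u, hu⟩ := h1
  have h2 : (u : ZMod q).val = a := by rw [hu, ZMod.val_natCast, Nat.mod_eq_of_lt ha.1]
  have h3 := term_eq x q hq u
  rw [h2] at h3
  rw [← h3]
  exact le_ciSup (f := fun a : (ZMod q)ˣ =>
      |(((Finset.Icc 1 x).filter
          (fun p : ℕ => Nat.Prime p ∧ ((p : ZMod q) = ((a : (ZMod q)ˣ) : ZMod q)))).card : ℝ)
        - (Nat.primeCounting x : ℝ) / (Nat.totient q : ℝ)|) (Set.finite_range _).bddAbove u

/-- **from the mean to the maximum** -/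
theorem above (θ C : ℝ) (hC : 0 < C) (x : ℕ) (hx : 2 < x) :
    S θ x ≤ Real.log x ^ (θ / C) * sumMean θ (order C x) x err := by
  unfold S sumMean
  rw [mul_sum]
  apply sum_le_sum
  intro q hq
  have hq' := mem_floor hq
  rw [mem_Icc] at hq
  have hp := order_pos hC hx
  have hφ0 : (0 : ℝ) < Nat.totient q := by exact_mod_cast Nat.totient_pos.mpr (by omega)
  have hxpos : (0 : ℝ) < x := by exact_mod_cast (by omega : 0 < x)
  have hL1 := log_gt hx
  have hl0 := Real.log_pos hL1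
  have hL0 : 0 < Real.log x := by linarith
  apply sup_le x q hq.1
  intro a ha
  refine (le_mean hp q hq.1 (err x q) (err_nonneg x q) a ha).trans ?_
  apply mul_le_mul_of_nonneg_right _ (mean_nonneg _ _ _ (err_nonneg x q))
  have h1 : (Nat.totient q : ℝ) ≤ (x : ℝ) ^ θ := by
    refine le_trans ?_ hq'
    exact_mod_cast Nat.totient_le q
  calc (Nat.totient q : ℝ) ^ (1 / order C x) ≤ ((x : ℝ) ^ θ) ^ (1 / order C x) :=
        Real.rpow_le_rpow hφ0.le h1 (by positivity)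
    _ = Real.log x ^ (θ / C) := by
        rw [← Real.rpow_mul hxpos.le, Real.rpow_def_of_pos hxpos, Real.rpow_def_of_pos hL0]
        congr 1
        unfold order
        field_simp

lemma sumMean_mono {θ p p' : ℝ} (hp : 0 < p) (hpp : p ≤ p') (x : ℕ) (E : ℕ → ℕ → ℕ → ℝ)
    (hE : ∀ q a, 0 ≤ E x q a) : sumMean θ p x E ≤ sumMean θ p' x E := by
  unfold sumMean
  apply sum_le_sum
  intro q hq
  rw [mem_Icc] at hq
  exact mean_mono hp hpp q hq.1 _ (hE q)

/-- the bound at one level `θ`, for the maximum -/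
def MaxAt (θ : ℝ) : Prop := ∀ A : ℝ, 0 < A → ∃ C : ℝ, 0 < C ∧ ∀ x : ℕ, 2 < x →
  S θ x ≤ C * (x : ℝ) * (Real.log (x : ℝ)) ^ (-A)

/-- the bound at one level `θ`, for the means of order `p x` -/
def MeanAt (θ : ℝ) (p : ℕ → ℝ) (E : ℕ → ℕ → ℕ → ℝ) : Prop := ∀ A : ℝ, 0 < A → ∃ C : ℝ, 0 < C ∧
  ∀ x : ℕ, 2 < x → sumMean θ (p x) x E ≤ C * (x : ℝ) * (Real.log (x : ℝ)) ^ (-A)

lemma max_of_mean (θ c : ℝ) (p : ℕ → ℝ) (hc : 0 < c) (hp : ∀ x, 2 < x → order c x ≤ p x)
    (h : MeanAt θ p err) : MaxAt θ := by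
  intro A hA
  obtain ⟨K, hK, hb⟩ := h (A + |θ| / c) (by positivity)
  refine ⟨K, hK, fun x hx => ?_⟩
  have hL1 := log_gt hx
  have hL0 : 0 < Real.log x := by linarith
  calc S θ x ≤ Real.log x ^ (θ / c) * sumMean θ (order c x) x err := above θ c hc x hx
    _ ≤ Real.log x ^ (θ / c) * sumMean θ (p x) x err := by
        apply mul_le_mul_of_nonneg_left _ (by positivity)
        exact sumMean_mono (order_pos hc hx) (hp x hx) x err (err_nonneg x)
    _ ≤ Real.log x ^ (θ / c) * (K * x * Real.log x ^ (-(A + |θ| / c))) :=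
        mul_le_mul_of_nonneg_left (hb x hx) (by positivity)
    _ = K * x * Real.log x ^ (θ / c + -(A + |θ| / c)) := by rw [Real.rpow_add hL0]; ring
    _ ≤ K * x * Real.log x ^ (-A) := by
        apply mul_le_mul_of_nonneg_left _ (by positivity)
        apply Real.rpow_le_rpow_of_exponent_le hL1.le
        have : θ / c ≤ |θ| / c := div_le_div_of_nonneg_right (le_abs_self θ) hc.le
        linarith

lemma res_nonempty (q : ℕ) (hq : 1 ≤ q) : (residues q).Nonempty := by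
  rw [← card_pos, card_res]
  exact Nat.totient_pos.2 hq

lemma mean_of_max (θ : ℝ) (p : ℕ → ℝ) (hp : ∀ x, 2 < x → 0 < p x) (h : MaxAt θ) : MeanAt θ p err := by
  intro A hA
  obtain ⟨K, hK, hb⟩ := h A hA
  refine ⟨K, hK, fun x hx => le_trans ?_ (hb x hx)⟩
  unfold S sumMean
  apply sum_le_sum
  intro q hq
  rw [mem_Icc] at hq
  obtain ⟨a, ha⟩ := res_nonempty q hq.1
  exact mean_le (hp x hx) q hq.1 _ (err_nonneg x q) _ ((err_nonneg x q a).trans (le_sup x q hq.1 a ha))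
    (fun a ha => le_sup x q hq.1 a ha)

lemma EHa_of_EH (h : EH) : EHa := by
  intro θ hθ A hA
  obtain ⟨K, hK, hb⟩ := h θ hθ A hA
  refine ⟨K, hK, fun x hx a ha => le_trans ?_ (hb x hx)⟩
  unfold S
  apply sum_le_sum
  intro q hq
  rw [mem_Icc] at hq
  exact le_sup x q hq.1 (a q) (ha q hq.1)

lemma bound_of_EH (hY : S_Y) (p : ℕ → ℝ) (hp : ∀ x, 2 < x → 0 < p x) (h : EH) : Bound p errMax := by
  intro θ hθ A hA
  obtain ⟨K, hK, hb⟩ := hY (EHa_of_EH h) θ hθ A hA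
  refine ⟨K, hK, fun x hx => ?_⟩
  have hch : ∀ q, 1 ≤ q → ∃ a ∈ residues q, ∀ b ∈ residues q, errMax x q b ≤ errMax x q a :=
    fun q hq => exists_max_image _ _ (res_nonempty q hq)
  choose! a ha hmax using hch
  refine le_trans ?_ (hb x hx a ha)
  unfold sumMean
  apply sum_le_sum
  intro q hq
  rw [mem_Icc] at hq
  exact mean_le (hp x hx) q hq.1 _ (errMax_nonneg x q) _ (errMax_nonneg _ _ _) (hmax q hq.1)

lemma bound_err (p : ℕ → ℝ) (hp : ∀ x, 2 < x → 0 < p x) (h : Bound p errMax) : Bound p err := by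
  intro θ hθ A hA
  obtain ⟨K, hK, hb⟩ := h θ hθ A hA
  refine ⟨K, hK, fun x hx => le_trans ?_ (hb x hx)⟩
  unfold sumMean
  apply sum_le_sum
  intro q hq
  exact mean_mono_fun (hp x hx) q _ _ (err_nonneg x q) (fun a _ => err_le_errMax x q a)

/-- **at and above the threshold the bound is the conjecture, at every level separately** -/
theorem threshold (c : ℝ) (p : ℕ → ℝ) (hc : 0 < c) (hp : ∀ x, 2 < x → order c x ≤ p x) (θ : ℝ) :
    MaxAt θ ↔ MeanAt θ p err :=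
  ⟨mean_of_max θ p (fun x hx => (order_pos hc hx).trans_le (hp x hx)), max_of_mean θ c p hc hp⟩

/-- **the same with the maximum over the lengths** -/
theorem thresholdMax (hY : S_Y) (c : ℝ) (p : ℕ → ℝ) (hc : 0 < c) (hp : ∀ x, 2 < x → order c x ≤ p x) :
    EH ↔ Bound p errMax := by
  have hp0 : ∀ x, 2 < x → 0 < p x := fun x hx => (order_pos hc hx).trans_le (hp x hx)
  exact ⟨bound_of_EH hY p hp0, fun h θ hθ => max_of_mean θ c p hc hp (bound_err p hp0 h θ hθ)⟩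

/-- below the threshold the bound holds -/
theorem belowBound (hBT : S_BT) (p : ℕ → ℝ) (hp : ∀ x, 2 < x → 0 < p x)
    (h : ∀ c : ℝ, 0 < c → ∃ X : ℕ, ∀ x, X ≤ x → p x ≤ order c x) : Bound p errMax := by
  intro θ hθ A hA
  obtain ⟨K, hK, hb⟩ := below hBT θ ((1 - θ) / A) hθ (div_pos (by linarith) hA)
  obtain ⟨X, hX⟩ := h ((1 - θ) / A) (div_pos (by linarith) hA)
  have hs : (1 - θ) / ((1 - θ) / A) = A := by
    have : 1 - θ ≠ 0 := by linarith
    field_simp
  rw [hs] at hb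
  have hlX : 1 < Real.log (max X 3 : ℕ) := log_gt (lt_of_lt_of_le (by norm_num) (le_max_right X 3))
  refine ⟨max K (2 * (max X 3 : ℕ) * Real.log (max X 3 : ℕ) ^ A), lt_max_of_lt_left hK, fun x hx => ?_⟩
  have hxpos : (0 : ℝ) < x := by exact_mod_cast (by omega : 0 < x)
  have hL1 := log_gt hx
  have hL0 : 0 < Real.log x := by linarith
  rcases lt_or_ge x (max X 3) with hxX | hxX
  · refine (small hθ hx (hp x hx)).trans ?_
    have h1 : (x : ℝ) ≤ (max X 3 : ℕ) := by exact_mod_cast hxX.le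
    have h2 : Real.log x ≤ Real.log (max X 3 : ℕ) := Real.log_le_log hxpos h1
    have h3 : 1 ≤ Real.log (max X 3 : ℕ) ^ A * Real.log x ^ (-A) := by
      rw [Real.rpow_neg hL0.le, ← div_eq_mul_inv, one_le_div (by positivity)]
      exact Real.rpow_le_rpow hL0.le h2 hA.le
    calc 2 * (x : ℝ) ^ 2 = 2 * x * x * 1 := by ring
      _ ≤ 2 * (max X 3 : ℕ) * x * (Real.log (max X 3 : ℕ) ^ A * Real.log x ^ (-A)) := by gcongr
      _ = (2 * (max X 3 : ℕ) * Real.log (max X 3 : ℕ) ^ A) * x * Real.log x ^ (-A) := by ring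
      _ ≤ _ := by gcongr; exact le_max_right _ _
  · calc sumMean θ (p x) x errMax ≤ K * x * Real.log x ^ (-A) :=
          hb x hx (p x) (hp x hx) (hX x ((le_max_left X 3).trans hxX))
      _ ≤ _ := by gcongr; exact le_max_left _ _

end Pool.Agent.V7H6.ET
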