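import Mathlib

set_option autoImplicit false

/-!
# Sharp order of the norm in the Elliott-Halberstam conjecture: definitions and statements of the pieces
-/

namespace Pool.Agent.V7H6.ET

open Finset

/-- `π(y)`: the number of primes `p ≤ y`. -/
def primePi (y : ℕ) : ℕ := ((Icc 1 y).filter (fun p : ℕ => p.Prime)).card

/-- `π(y; q, a)`: the number of primes `p ≤ y` with `p ≡ a (mod q)`. -/
def primePiAP (y q a : ℕ) : ℕ := ((Icc 1 y).filter (fun p : ℕ => p.Prime ∧ p ≡ a [MOD q])).card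

/-- `|π(y; q, a) - π(y)/φ(q)|` -/
noncomputable def err (y q a : ℕ) : ℝ := |(primePiAP y q a : ℝ) - (primePi y : ℝ) / (Nat.totient q : ℝ)|

/-- The maximum of `|π(y; q, a) - π(y)/φ(q)|` over all lengths `y ≤ x`. -/
noncomputable def errMax (x q a : ℕ) : ℝ :=
  (range (x + 1)).sup' ⟨0, mem_range.2 (Nat.succ_pos x)⟩ (fun y => err y q a)

/-- The reduced residues modulo `q`. -/
def residues (q : ℕ) : Finset ℕ := (range q).filter (fun a => a.Coprime q)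

/-- Elliott-Halberstam in a form without suprema: for all choices of reduced residues `a q` -/
def EHa : Prop := ∀ θ : ℝ, θ < 1 → ∀ A : ℝ, 0 < A → ∃ C : ℝ, 0 < C ∧ ∀ x : ℕ, 2 < x →
  ∀ a : ℕ → ℕ, (∀ q, 1 ≤ q → a q ∈ residues q) →
  ∑ q ∈ Icc 1 ⌊(x : ℝ) ^ θ⌋₊, err x q (a q) ≤ C * (x : ℝ) * Real.log x ^ (-A)

/-- the same with the maximum over all lengths `y ≤ x` -/
def EHm : Prop := ∀ θ : ℝ, θ < 1 → ∀ A : ℝ, 0 < A → ∃ C : ℝ, 0 < C ∧ ∀ x : ℕ, 2 < x →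
  ∀ a : ℕ → ℕ, (∀ q, 1 ≤ q → a q ∈ residues q) →
  ∑ q ∈ Icc 1 ⌊(x : ℝ) ^ θ⌋₊, errMax x q (a q) ≤ C * (x : ℝ) * Real.log x ^ (-A)

/-- sum over the moduli (PROVED in the library: `Pool.Agent.Helper112.sum_ratio_sq`) -/
def S_PHI : Prop := ∃ C : ℝ, 0 < C ∧ ∀ Y : ℕ, 1 ≤ Y →
  ∑ r ∈ Icc 1 Y, 1 / (r : ℝ) * ((r : ℝ) / Nat.totient r) ^ 2 ≤ C * (1 + Real.log Y)

/-- the Brun-Titchmarsh inequality (PROVED in the library: `Pool.Agent.H617R3.BT.bt2`) -/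
def S_BT2 : Prop := ∀ ε : ℝ, 0 < ε → ∃ N₀ : ℕ, 3 ≤ N₀ ∧ ∀ a q N : ℕ, 1 ≤ q → N₀ ≤ N →
    (((range N).filter (fun t => (a + t * q).Prime)).card : ℝ) ≤
      (2 + ε) * ((q : ℝ) / Nat.totient q) * N / Real.log N

/-- JOB BT: the trivial bound with the saving of a logarithm -/
def S_BT : Prop := ∀ θ : ℝ, θ < 1 → ∃ K : ℝ, 0 < K ∧ ∀ x : ℕ, 2 < x → ∀ q : ℕ, 1 ≤ q → (q : ℝ) ≤ (x : ℝ) ^ θ →
  ∀ a ∈ residues q, errMax x q a ≤ K * x / ((Nat.totient q : ℝ) * Real.log x)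

/-- JOB Y: from the length `x` to all lengths `y ≤ x` -/
def S_Y : Prop := EHa → EHm

end Pool.Agent.V7H6.ET
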